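import Mathlib

/-!
# A graph with `δ = χ = d - 1` and no immersion of `K_d`

For `d = 10`: take `K_9` and join each of its vertices by one edge to its own copy of
`K_{3,3,3,3}`.
-/

namespace Pool.Agent.Results.MP_5ee7f3_co.NoImmersion

open SimpleGraph

/-- `G` contains an immersion of `K_d`: distinct corners `v 0, …, v (d-1)` and, for `i < j`, a path
`P i j` from `v i` to `v j`, the paths being pairwise edge-disjoint. -/
def HasCliqueImmersion {V : Type} (G : SimpleGraph V) (d : ℕ) : Prop :=
  ∃ (v : Fin d → V) (P : ∀ i j : Fin d, G.Walk (v i) (v j)),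
    Function.Injective v ∧ (∀ i j, i < j → (P i j).IsPath) ∧
    ∀ i j i' j', i < j → i' < j' → (i, j) ≠ (i', j') →
      ∀ e ∈ (P i j).edges, e ∉ (P i' j').edges

section Cut

variable {V : Type} {G : SimpleGraph V}

/-- The edge `e` leaves the set `S`. -/
def Cut (S : Set V) (e : Sym2 V) : Prop := ∃ a b, a ∈ S ∧ b ∉ S ∧ e = s(a, b)

theorem cut_mk (S : Set V) (u w : V) : Cut S s(u, w) ↔ ¬ (u ∈ S ↔ w ∈ S) := by
  constructor
  · rintro ⟨a, b, ha, hb, h⟩
    rcases Sym2.eq_iff.mp h with ⟨rfl, rfl⟩ | ⟨rfl, rfl⟩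
    · exact fun h' => hb (h'.mp ha)
    · exact fun h' => hb (h'.mpr ha)
  · intro h
    by_cases hu : u ∈ S
    · exact ⟨u, w, hu, fun hw => h ⟨fun _ => hw, fun _ => hu⟩, rfl⟩
    · by_cases hw : w ∈ S
      · exact ⟨w, u, hw, hu, Sym2.eq_swap⟩
      · exact absurd ⟨fun h' => absurd h' hu, fun h' => absurd h' hw⟩ h

open Classical in
theorem cut_parity (S : Set V) {u v : V} (p : G.Walk u v) :
    Even (p.edges.countP (fun e => decide (Cut S e))) ↔ (u ∈ S ↔ v ∈ S) := by
  induction p with
  | nil => simp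
  | cons h p ih =>
    rename_i a b c
    rw [Walk.edges_cons, List.countP_cons]
    by_cases hc : Cut S s(a, b)
    · have h1 := (cut_mk S a b).mp hc
      rw [decide_eq_true hc, if_pos rfl, Nat.even_add_one, ih]
      tauto
    · have h1 := (cut_mk S a b).not.mp hc
      rw [not_not] at h1
      rw [decide_eq_false hc, if_neg (by simp), add_zero, ih]
      tauto

open Classical in
/-- The number of edges of a path leaving `S`, as the cardinality of a finset. -/
theorem cut_parity_finset [DecidableEq V] (S : Set V) {u v : V} (p : G.Walk u v) (hp : p.IsPath) :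
    Even ((p.edges.toFinset.filter (fun e => Cut S e)).card) ↔ (u ∈ S ↔ v ∈ S) := by
  rw [← cut_parity S p]
  have h1 : (p.edges.toFinset.filter (fun e => Cut S e)).card =
      p.edges.countP (fun e => decide (Cut S e)) := by
    have h2 : p.edges.toFinset.filter (fun e => Cut S e) =
        (p.edges.filter (fun e => decide (Cut S e))).toFinset := by
      ext e
      simp
    rw [h2, List.toFinset_card_of_nodup, List.countP_eq_length_filter]
    exact (hp.isTrail.edges_nodup).filter _
  rw [h1]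

end Cut

/-- The vertex set: the vertices of `K_9` and nine copies of the vertex set of `K_{3,3,3,3}`. -/
abbrev Vx : Type := Fin 9 ⊕ (Fin 9 × (Fin 4 × Fin 3))

/-- Adjacency as a Boolean function. -/
def adjB (p q : Vx) : Bool :=
  match p, q with
  | Sum.inl a, Sum.inl b => a != b
  | Sum.inl a, Sum.inr (b, z) => a == b && z == (0, 0)
  | Sum.inr (b, z), Sum.inl a => a == b && z == (0, 0)
  | Sum.inr (a, z), Sum.inr (b, z') => a == b && z.1 != z'.1

/-- The graph: `K_9`, nine disjoint copies of `K_{3,3,3,3}`, and an edge from the vertex `a` of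
`K_9` to the vertex `(0, 0)` of copy `a`. -/
def G : SimpleGraph Vx where
  Adj p q := adjB p q = true
  symm := by
    constructor
    rintro (a | ⟨a, z⟩) (b | ⟨b, z'⟩) h
    · simp only [adjB, bne_iff_ne] at h ⊢
      exact h.symm
    · exact h
    · exact h
    · simp only [adjB, Bool.and_eq_true, beq_iff_eq, bne_iff_ne] at h ⊢
      exact ⟨h.1.symm, h.2.symm⟩
  loopless := by
    constructor
    rintro (a | ⟨a, z⟩) h
    · simp [adjB] at h
    · simp [adjB] at h

instance : DecidableRel G.Adj := fun p q => inferInstanceAs (Decidable (adjB p q = true))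

theorem adj_copy (t : Fin 9) (z : Fin 4 × Fin 3) (x : Vx) (h : G.Adj (Sum.inr (t, z)) x) :
    (x = Sum.inl t ∧ z = (0, 0)) ∨ ∃ z', x = Sum.inr (t, z') ∧ z.1 ≠ z'.1 := by
  rcases x with a | ⟨b, z'⟩
  · have h' : adjB (Sum.inr (t, z)) (Sum.inl a) = true := h
    simp only [adjB, Bool.and_eq_true, beq_iff_eq] at h'
    exact Or.inl ⟨by rw [h'.1], h'.2⟩
  · have h' : adjB (Sum.inr (t, z)) (Sum.inr (b, z')) = true := h
    simp only [adjB, Bool.and_eq_true, beq_iff_eq, bne_iff_ne] at h'
    exact Or.inr ⟨z', by rw [h'.1], h'.2⟩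

/-- The bridge at copy `t`. -/
def bridge (t : Fin 9) : Sym2 Vx := s(Sum.inl t, Sum.inr (t, (0, 0)))

/-- The vertex set of copy `t`. -/
def copy (t : Fin 9) : Set Vx := {x | ∃ z, x = Sum.inr (t, z)}

theorem cut_copy (t : Fin 9) {e : Sym2 Vx} (he : e ∈ G.edgeSet) (hc : Cut (copy t) e) :
    e = bridge t := by
  obtain ⟨a, b, ⟨z, rfl⟩, hb, rfl⟩ := hc
  rw [SimpleGraph.mem_edgeSet] at he
  rcases adj_copy t z b he with ⟨rfl, rfl⟩ | ⟨z', rfl, -⟩
  · exact Sym2.eq_swap
  · exact absurd ⟨z', rfl⟩ hb

/-! ### Abstract form of an immersion: edge sets -/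

open Classical in
/-- What we use about an immersion of `K_10`: symmetric, pairwise disjoint edge sets `E i j` with
the parity property for all cuts. -/
structure Imm (v : Fin 10 → Vx) (E : Fin 10 → Fin 10 → Finset (Sym2 Vx)) : Prop where
  inj : Function.Injective v
  symm : ∀ i j, E i j = E j i
  edge : ∀ i j, ∀ e ∈ E i j, e ∈ G.edgeSet
  disj : ∀ i j i' j', i ≠ j → i' ≠ j' → ∀ e, e ∈ E i j → e ∈ E i' j' →
    (i = i' ∧ j = j') ∨ (i = j' ∧ j = i')
  parity : ∀ i j, i ≠ j → ∀ S : Set Vx,
    (Even ((E i j).filter (fun e => Cut S e)).card ↔ (v i ∈ S ↔ v j ∈ S))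

theorem exists_imm (h : HasCliqueImmersion G 10) : ∃ v E, Imm v E := by
  classical
  obtain ⟨v, P, hv, hP, hdisj⟩ := h
  let E : Fin 10 → Fin 10 → Finset (Sym2 Vx) := fun i j =>
    if i < j then (P i j).edges.toFinset else (P j i).edges.toFinset
  have hlt : ∀ i j, i < j → E i j = (P i j).edges.toFinset := fun i j h => if_pos h
  have hgt : ∀ i j, ¬ i < j → E i j = (P j i).edges.toFinset := fun i j h => if_neg h
  have hsymm : ∀ i j, E i j = E j i := by
    intro i j
    rcases lt_trichotomy i j with h | h | h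
    · rw [hlt i j h, hgt j i (not_lt.mpr h.le)]
    · rw [h]
    · rw [hlt j i h, hgt i j (not_lt.mpr h.le)]
  have hd : ∀ i j i' j', i < j → i' < j' → ∀ e, e ∈ E i j → e ∈ E i' j' → i = i' ∧ j = j' := by
    intro i j i' j' h h' e he he'
    rw [hlt i j h, List.mem_toFinset] at he
    rw [hlt i' j' h', List.mem_toFinset] at he'
    by_contra hne
    exact hdisj i j i' j' h h' (fun h'' => hne (by simpa using h'')) e he he'
  refine ⟨v, E, hv, hsymm, ?_, ?_, ?_⟩
  · intro i j e he
    rcases lt_or_ge i j with h | h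
    · rw [hlt i j h, List.mem_toFinset] at he
      exact Walk.edges_subset_edgeSet _ he
    · rw [hgt i j (not_lt.mpr h), List.mem_toFinset] at he
      exact Walk.edges_subset_edgeSet _ he
  · intro i j i' j' hij hij' e he he'
    rcases lt_or_gt_of_ne hij with h | h <;> rcases lt_or_gt_of_ne hij' with h' | h'
    · exact Or.inl (hd i j i' j' h h' e he he')
    · rw [hsymm i' j'] at he'
      exact Or.inr (hd i j j' i' h h' e he he')
    · rw [hsymm i j] at he
      have := hd j i i' j' h h' e he he'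
      exact Or.inr ⟨this.2, this.1⟩
    · rw [hsymm i j] at he
      rw [hsymm i' j'] at he'
      have := hd j i j' i' h h' e he he'
      exact Or.inl ⟨this.2, this.1⟩
  · intro i j hij S
    rcases lt_or_gt_of_ne hij with h | h
    · rw [hlt i j h]
      exact cut_parity_finset S (P i j) (hP i j h)
    · rw [hsymm i j, hlt j i h, cut_parity_finset S (P j i) (hP j i h)]
      exact ⟨fun h => h.symm, fun h => h.symm⟩

section Main

variable {v : Fin 10 → Vx} {E : Fin 10 → Fin 10 → Finset (Sym2 Vx)}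

/-- A path between corners on different sides of a bridge uses the bridge. -/
theorem bridge_mem (h : Imm v E) (t : Fin 9) {i j : Fin 10} (hij : i ≠ j)
    (hi : v i ∈ copy t) (hj : v j ∉ copy t) : bridge t ∈ E i j := by
  classical
  have h1 := h.parity i j hij (copy t)
  have h2 : ¬ Even ((E i j).filter (fun e => Cut (copy t) e)).card :=
    fun h' => hj ((h1.mp h').mp hi)
  have h3 : ((E i j).filter (fun e => Cut (copy t) e)).Nonempty := by
    rw [Finset.nonempty_iff_ne_empty]
    intro h'
    rw [h'] at h2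
    exact h2 (by simp)
  obtain ⟨e, he⟩ := h3
  rw [Finset.mem_filter] at he
  rw [← cut_copy t (h.edge i j e he.1) he.2]
  exact he.1

/-- If one corner lies in copy `t` then all corners do. -/
theorem all_in_copy (h : Imm v E) (t : Fin 9) {i : Fin 10} (hi : v i ∈ copy t) :
    ∀ j, v j ∈ copy t := by
  intro j
  by_contra hj
  have hij : i ≠ j := fun h' => hj (h' ▸ hi)
  obtain ⟨l, hl⟩ : ∃ l : Fin 10, l ≠ i ∧ l ≠ j := by
    have : ∀ i j : Fin 10, ∃ l : Fin 10, l ≠ i ∧ l ≠ j := by decide
    exact this i j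
  have h1 := bridge_mem h t hij hi hj
  by_cases hlt : v l ∈ copy t
  · have h2 := bridge_mem h t hl.2 hlt hj
    rcases h.disj i j l j hij hl.2 _ h1 h2 with h' | h'
    · exact hl.1 h'.1.symm
    · exact hl.2 h'.2.symm
  · have h2 := bridge_mem h t hl.1.symm hi hlt
    rcases h.disj i j i l hij hl.1.symm _ h1 h2 with h' | h'
    · exact hl.2 h'.2.symm
    · exact hl.1 h'.1.symm

/-- All corners lie in one copy. -/
theorem exists_copy (h : Imm v E) : ∃ t : Fin 9, ∃ y : Fin 10 → Fin 4 × Fin 3,
    Function.Injective y ∧ ∀ i, v i = Sum.inr (t, y i) := by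
  by_cases hex : ∃ t i, v i ∈ copy t
  · obtain ⟨t, i, hi⟩ := hex
    have hall := all_in_copy h t hi
    choose y hy using hall
    refine ⟨t, y, ?_, hy⟩
    intro a b hab
    apply h.inj
    rw [hy a, hy b, hab]
  · exfalso
    push Not at hex
    have hl : ∀ i, ∃ a : Fin 9, v i = Sum.inl a := by
      intro i
      rcases hv : v i with a | ⟨t, z⟩
      · exact ⟨a, rfl⟩
      · exact absurd ⟨z, hv⟩ (hex t i)
    choose a ha using hl
    have hinj : Function.Injective a := by
      intro i j hij
      apply h.inj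
      rw [ha i, ha j, hij]
    have := Fintype.card_le_of_injective a hinj
    simp at this

theorem no_bridge (h : Imm v E) (t : Fin 9) {y : Fin 10 → Fin 4 × Fin 3}
    (hy : ∀ i, v i = Sum.inr (t, y i)) {i j : Fin 10} (hij : i ≠ j) : bridge t ∉ E i j := by
  classical
  intro hb
  have h1 := h.parity i j hij (copy t)
  have h2 : (E i j).filter (fun e => Cut (copy t) e) = {bridge t} := by
    ext e
    rw [Finset.mem_filter, Finset.mem_singleton]
    constructor
    · rintro ⟨he, hc⟩
      exact cut_copy t (h.edge i j e he) hc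
    · rintro rfl
      refine ⟨hb, ?_⟩
      rw [bridge, cut_mk]
      intro hiff
      have : (Sum.inl t : Vx) ∈ copy t := hiff.mpr ⟨(0, 0), rfl⟩
      obtain ⟨z, hz⟩ := this
      exact absurd hz (by simp)
  rw [h2, Finset.card_singleton] at h1
  have h3 := h1.mpr ⟨fun _ => ⟨y j, hy j⟩, fun _ => ⟨y i, hy i⟩⟩
  exact absurd h3 (by decide)

/-- The edge of copy `t` joining `z` and `z'`. -/
def ed (t : Fin 9) (z z' : Fin 4 × Fin 3) : Sym2 Vx := s(Sum.inr (t, z), Sum.inr (t, z'))

theorem ed_comm (t : Fin 9) (z z' : Fin 4 × Fin 3) : ed t z z' = ed t z' z := Sym2.eq_swap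

theorem ed_inj {t : Fin 9} {z z' z'' : Fin 4 × Fin 3} (h : ed t z z' = ed t z z'') :
    z' = z'' := by
  unfold ed at h
  rcases Sym2.eq_iff.mp h with ⟨-, h2⟩ | ⟨h1, h2⟩
  · simpa using h2
  · have e1 : z = z'' := by simpa using h1
    have e2 : z' = z := by simpa using h2
    rw [e2, e1]

theorem ed_inj' {t : Fin 9} {z z' z'' : Fin 4 × Fin 3} (h : ed t z z'' = ed t z' z'') :
    z = z' := by
  rw [ed_comm t z, ed_comm t z'] at h
  exact ed_inj h

/-- The edges of `E i j` at a vertex of copy `t` are edges of the copy. -/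
theorem edge_at (h : Imm v E) (t : Fin 9) {y : Fin 10 → Fin 4 × Fin 3}
    (hy : ∀ i, v i = Sum.inr (t, y i)) {i j : Fin 10} (hij : i ≠ j) {e : Sym2 Vx}
    (he : e ∈ E i j) {z : Fin 4 × Fin 3} (hz : Cut {Sum.inr (t, z)} e) :
    ∃ z', z.1 ≠ z'.1 ∧ e = ed t z z' := by
  obtain ⟨a, b, ha, hb, rfl⟩ := hz
  rw [Set.mem_singleton_iff] at ha
  subst ha
  have h1 := h.edge i j _ he
  rw [SimpleGraph.mem_edgeSet] at h1
  rcases adj_copy t z b h1 with ⟨rfl, rfl⟩ | ⟨z', rfl, hz'⟩
  · exfalso
    apply no_bridge h t hy hij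
    rw [bridge, Sym2.eq_swap]
    exact he
  · exact ⟨z', hz', rfl⟩

theorem cut_ed {t : Fin 9} {z z' : Fin 4 × Fin 3} (hz : z.1 ≠ z'.1) :
    Cut {Sum.inr (t, z)} (ed t z z') := by
  unfold ed
  rw [cut_mk]
  intro h
  have h1 : (Sum.inr (t, z') : Vx) ∈ ({Sum.inr (t, z)} : Set Vx) := h.mp rfl
  have h2 : z' = z := by simpa using h1
  exact hz (by rw [h2])

/-- Each path ending at a corner uses an edge there. -/
theorem exists_end (h : Imm v E) (t : Fin 9) {y : Fin 10 → Fin 4 × Fin 3}
    (hy : ∀ i, v i = Sum.inr (t, y i)) {i j : Fin 10} (hij : i ≠ j) :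
    ∃ z, (y i).1 ≠ z.1 ∧ ed t (y i) z ∈ E i j := by
  classical
  have h1 := h.parity i j hij {Sum.inr (t, y i)}
  have h2 : ¬ Even ((E i j).filter (fun e => Cut {Sum.inr (t, y i)} e)).card := by
    intro h'
    have h3 := (h1.mp h').mp (hy i)
    apply hij
    apply h.inj
    rw [h3, hy i]
  have h3 : ((E i j).filter (fun e => Cut {Sum.inr (t, y i)} e)).Nonempty := by
    rw [Finset.nonempty_iff_ne_empty]
    intro h'
    rw [h'] at h2
    exact h2 (by simp)
  obtain ⟨e, he⟩ := h3
  rw [Finset.mem_filter] at he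
  obtain ⟨z, hz, rfl⟩ := edge_at h t hy hij he.1 he.2
  exact ⟨z, hz, he.1⟩

/-- The nine paths ending at a corner use the nine edges there, one each. -/
theorem ends (h : Imm v E) (t : Fin 9) {y : Fin 10 → Fin 4 × Fin 3}
    (hy : ∀ i, v i = Sum.inr (t, y i)) (i : Fin 10) :
    ∃ g : Fin 10 → Fin 4 × Fin 3, (∀ j, j ≠ i → (y i).1 ≠ (g j).1 ∧ ed t (y i) (g j) ∈ E i j) ∧
      ∀ z, (y i).1 ≠ z.1 → ∃ j, j ≠ i ∧ g j = z := by
  classical
  have hg : ∀ j, ∃ z, j ≠ i → (y i).1 ≠ z.1 ∧ ed t (y i) z ∈ E i j := by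
    intro j
    by_cases hj : j = i
    · exact ⟨(0, 0), fun h' => absurd hj h'⟩
    · obtain ⟨z, hz⟩ := exists_end h t hy (Ne.symm hj)
      exact ⟨z, fun _ => hz⟩
  choose g hg using hg
  refine ⟨g, hg, ?_⟩
  have hsurj := Finset.surj_on_of_inj_on_of_card_le
    (s := Finset.univ.filter (fun j : Fin 10 => j ≠ i))
    (t := Finset.univ.filter (fun z : Fin 4 × Fin 3 => (y i).1 ≠ z.1))
    (fun j _ => g j)
    (by
      intro j hj
      rw [Finset.mem_filter] at hj ⊢
      exact ⟨Finset.mem_univ _, (hg j hj.2).1⟩)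
    (by
      intro j j' hj hj' heq
      rw [Finset.mem_filter] at hj hj'
      have h1 := (hg j hj.2).2
      have h2 := (hg j' hj'.2).2
      have heq' : g j = g j' := heq
      rw [← heq'] at h2
      rcases h.disj i j i j' hj.2.symm hj'.2.symm _ h1 h2 with h' | h'
      · exact h'.2
      · exact absurd h'.2 hj.2)
    (by
      have c1 : ∀ i : Fin 10, (Finset.univ.filter (fun j : Fin 10 => j ≠ i)).card = 9 := by
        decide
      have c2 : ∀ p : Fin 4, (Finset.univ.filter (fun z : Fin 4 × Fin 3 => p ≠ z.1)).card = 9 := by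
        decide
      rw [c1, c2])
  intro z hz
  obtain ⟨j, hj, hjz⟩ := hsurj z (Finset.mem_filter.mpr ⟨Finset.mem_univ _, hz⟩)
  exact ⟨j, (Finset.mem_filter.mp hj).2, hjz.symm⟩

/-- Every edge at a corner is used by a path ending there. -/
theorem end_used (h : Imm v E) (t : Fin 9) {y : Fin 10 → Fin 4 × Fin 3}
    (hy : ∀ i, v i = Sum.inr (t, y i)) (i : Fin 10) {z : Fin 4 × Fin 3} (hz : (y i).1 ≠ z.1) :
    ∃ j, j ≠ i ∧ ed t (y i) z ∈ E i j := by
  obtain ⟨g, hg1, hg2⟩ := ends h t hy i
  obtain ⟨j, hj, rfl⟩ := hg2 z hz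
  exact ⟨j, hj, (hg1 j hj).2⟩

/-- A path uses only one edge at its end. -/
theorem end_unique (h : Imm v E) (t : Fin 9) {y : Fin 10 → Fin 4 × Fin 3}
    (hy : ∀ i, v i = Sum.inr (t, y i)) {i j : Fin 10} (hij : i ≠ j) {z z' : Fin 4 × Fin 3}
    (hz : (y i).1 ≠ z.1) (hz' : (y i).1 ≠ z'.1) (h1 : ed t (y i) z ∈ E i j)
    (h2 : ed t (y i) z' ∈ E i j) : z = z' := by
  obtain ⟨g, hg1, hg2⟩ := ends h t hy i
  have key : ∀ w, (y i).1 ≠ w.1 → ed t (y i) w ∈ E i j → w = g j := by
    intro w hw hw2
    obtain ⟨l, hl, hlw⟩ := hg2 w hw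
    have h3 := (hg1 l hl).2
    rw [hlw] at h3
    rcases h.disj i j i l hij hl.symm _ hw2 h3 with h' | h'
    · rw [← hlw, h'.2]
    · exact absurd h'.2 hij.symm
  rw [key z hz h1, key z' hz' h2]

/-- An edge at a corner `k` belongs only to paths ending at `k`. -/
theorem end_only (h : Imm v E) (t : Fin 9) {y : Fin 10 → Fin 4 × Fin 3}
    (hy : ∀ i, v i = Sum.inr (t, y i)) {i j k : Fin 10} (hij : i ≠ j) {z : Fin 4 × Fin 3}
    (hz : (y k).1 ≠ z.1) (h1 : ed t (y k) z ∈ E i j) : k = i ∨ k = j := by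
  obtain ⟨l, hl, h2⟩ := end_used h t hy k hz
  rcases h.disj i j k l hij hl.symm _ h1 h2 with h' | h'
  · exact Or.inl h'.1.symm
  · exact Or.inr h'.2.symm

/-- The edge between two adjacent corners belongs to their own path. -/
theorem corner_edge (h : Imm v E) (t : Fin 9) {y : Fin 10 → Fin 4 × Fin 3}
    (hy : ∀ i, v i = Sum.inr (t, y i)) {i j : Fin 10} (hne : (y i).1 ≠ (y j).1) :
    ed t (y i) (y j) ∈ E i j := by
  have hij : i ≠ j := fun h' => hne (by rw [h'])
  obtain ⟨l, hl, h2⟩ := end_used h t hy i hne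
  have h3 := h2
  rw [ed_comm] at h3
  rcases end_only h t hy hl.symm hne.symm h3 with h' | h'
  · exact absurd h'.symm hij
  · rw [← h'] at h2
    exact h2

/-- In a part all of whose vertices are corners, some path uses the edge between the two vertices
that are not corners. -/
theorem full_part (h : Imm v E) (t : Fin 9) {y : Fin 10 → Fin 4 × Fin 3}
    (hy : ∀ i, v i = Sum.inr (t, y i)) (w w' : Fin 4 × Fin 3) (hw : ∀ i, y i ≠ w)
    (hcov : ∀ z, z ≠ w → z ≠ w' → ∃ i, y i = z) {a b c : Fin 10}
    (hab : a ≠ b) (hbc : b ≠ c) (hca : c ≠ a) (pb : (y b).1 = (y a).1) (pc : (y c).1 = (y a).1)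
    (hfull : ∀ i, (y i).1 = (y a).1 → i = a ∨ i = b ∨ i = c) (hpw : (y a).1 ≠ w.1) :
    ∃ i j, (i = a ∨ i = b ∨ i = c) ∧ (j = a ∨ j = b ∨ j = c) ∧ i ≠ j ∧ ed t w w' ∈ E i j := by
  classical
  by_contra hcon
  push Not at hcon
  -- if `i, j` are in the part, then the path `i j` uses both or none of the edges to `w`
  have hboth : ∀ i j, (i = a ∨ i = b ∨ i = c) → (j = a ∨ j = b ∨ j = c) → i ≠ j →
      ed t (y i) w ∈ E i j → ed t (y j) w ∈ E i j := by
    intro i j hi hj hij h1
    by_contra h2
    have h3 := h.parity i j hij {Sum.inr (t, w)}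
    have h4 : (E i j).filter (fun e => Cut {Sum.inr (t, w)} e) = {ed t (y i) w} := by
      ext e
      rw [Finset.mem_filter, Finset.mem_singleton]
      constructor
      · rintro ⟨he, hc⟩
        obtain ⟨z, hz, rfl⟩ := edge_at h t hy hij he hc
        by_cases hzw : z = w'
        · subst hzw
          exact absurd he (hcon i j hi hj hij)
        · have hzw2 : z ≠ w := fun h' => hz (by rw [h'])
          obtain ⟨l, rfl⟩ := hcov z hzw2 hzw
          rw [ed_comm] at he ⊢
          rcases end_only h t hy hij hz.symm he with h' | h'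
          · rw [h']
          · rw [h'] at he
            exact absurd he h2
      · rintro rfl
        refine ⟨h1, ?_⟩
        rw [ed_comm]
        apply cut_ed
        have : (y i).1 = (y a).1 := by
          rcases hi with rfl | rfl | rfl
          · rfl
          · exact pb
          · exact pc
        rw [this]
        exact hpw.symm
    rw [h4, Finset.card_singleton] at h3
    have h5 : v i ∉ ({Sum.inr (t, w)} : Set Vx) := by
      rw [Set.mem_singleton_iff, hy i]
      intro h'
      apply hw i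
      simpa using h'
    have h6 : v j ∉ ({Sum.inr (t, w)} : Set Vx) := by
      rw [Set.mem_singleton_iff, hy j]
      intro h'
      apply hw j
      simpa using h'
    exact absurd (h3.mpr ⟨fun h' => absurd h' h5, fun h' => absurd h' h6⟩) (by decide)
  -- the edge from `i` to `w` belongs to a path inside the part
  have hin : ∀ i, (i = a ∨ i = b ∨ i = c) → ∃ j, (j = a ∨ j = b ∨ j = c) ∧ j ≠ i ∧
      ed t (y i) w ∈ E i j := by
    intro i hi
    have hpi : (y i).1 = (y a).1 := by
      rcases hi with rfl | rfl | rfl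
      · rfl
      · exact pb
      · exact pc
    have hpiw : (y i).1 ≠ w.1 := by rw [hpi]; exact hpw
    obtain ⟨j, hj, h1⟩ := end_used h t hy i hpiw
    refine ⟨j, ?_, hj, h1⟩
    by_cases hpj : (y j).1 = (y a).1
    · exact hfull j hpj
    · exfalso
      have hne : (y i).1 ≠ (y j).1 := by rw [hpi]; exact Ne.symm hpj
      have h2 := corner_edge h t hy hne
      have h3 := end_unique h t hy (Ne.symm hj) hpiw hne h1 h2
      exact hw j h3.symm
  -- two different paths cannot use the same edge at `i`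
  have hone : ∀ i j l, i ≠ j → i ≠ l → ed t (y i) w ∈ E i j → ed t (y i) w ∈ E i l → j = l := by
    intro i j l hij hil h1 h2
    rcases h.disj i j i l hij hil _ h1 h2 with h' | h'
    · exact h'.2
    · exact absurd h'.1 hil
  have ha : a = a ∨ a = b ∨ a = c := Or.inl rfl
  have hb : b = a ∨ b = b ∨ b = c := Or.inr (Or.inl rfl)
  have hc : c = a ∨ c = b ∨ c = c := Or.inr (Or.inr rfl)
  -- the pairing of the three vertices is impossible
  have hpair : ∀ i j l, (i = a ∨ i = b ∨ i = c) → (j = a ∨ j = b ∨ j = c) →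
      (l = a ∨ l = b ∨ l = c) → i ≠ j → j ≠ l → l ≠ i →
      (∀ m, (m = a ∨ m = b ∨ m = c) → m = i ∨ m = j ∨ m = l) →
      ed t (y i) w ∈ E i j → False := by
    intro i j l hi hj hl hij hjl hli hthree h1
    have h2 := hboth i j hi hj hij h1
    rw [h.symm i j] at h2
    obtain ⟨m, hm, hml, h3⟩ := hin l hl
    have h4 := hboth l m hl hm hml.symm h3
    rw [h.symm l m] at h4
    rcases hthree m hm with rfl | rfl | rfl
    · exact hjl (hone m j l hij hli.symm h1 h4)
    · exact hli (hone m i l hij.symm hjl h2 h4).symm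
    · exact hml rfl
  obtain ⟨j, hj, hja, h1⟩ := hin a ha
  rcases hj with rfl | rfl | rfl
  · exact hja rfl
  · exact hpair a j c ha hb hc hab hbc hca (fun m hm => hm) h1
  · refine hpair a j b ha hc hb hca.symm hbc.symm hab.symm (fun m hm => ?_) h1
    rcases hm with hm | hm | hm
    · exact Or.inl hm
    · exact Or.inr (Or.inr hm)
    · exact Or.inr (Or.inl hm)

theorem no_imm (h : Imm v E) : False := by
  classical
  obtain ⟨t, y, hyinj, hy⟩ := exists_copy h
  -- the two vertices that are not corners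
  have hcard : (Finset.univ \ Finset.univ.image y).card = 2 := by
    rw [Finset.card_sdiff_of_subset (Finset.subset_univ _),
      Finset.card_image_of_injective _ hyinj]
    rfl
  obtain ⟨w, w', hww, hset⟩ := Finset.card_eq_two.mp hcard
  have hw : ∀ i, y i ≠ w := by
    intro i hi
    have : w ∈ Finset.univ \ Finset.univ.image y := by rw [hset]; simp
    rw [Finset.mem_sdiff] at this
    exact this.2 (Finset.mem_image.mpr ⟨i, Finset.mem_univ _, hi⟩)
  have hcov : ∀ z, z ≠ w → z ≠ w' → ∃ i, y i = z := by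
    intro z h1 h2
    by_contra hno
    push Not at hno
    have : z ∈ Finset.univ \ Finset.univ.image y := by
      rw [Finset.mem_sdiff]
      refine ⟨Finset.mem_univ _, ?_⟩
      rw [Finset.mem_image]
      rintro ⟨i, -, hi⟩
      exact hno i hi
    rw [hset] at this
    simp only [Finset.mem_insert, Finset.mem_singleton] at this
    rcases this with h' | h'
    · exact h1 h'
    · exact h2 h'
  -- a part without non-corners
  have hpart : ∀ p : Fin 4, p ≠ w.1 → p ≠ w'.1 → ∃ a b c : Fin 10, a ≠ b ∧ b ≠ c ∧ c ≠ a ∧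
      (y a).1 = p ∧ (y b).1 = p ∧ (y c).1 = p ∧
      ∀ i, (y i).1 = p → i = a ∨ i = b ∨ i = c := by
    intro p h1 h2
    have hc : ∀ q : Fin 3, ∃ i, y i = (p, q) := fun q =>
      hcov (p, q) (fun h' => h1 (by rw [← h'])) (fun h' => h2 (by rw [← h']))
    obtain ⟨a, ha⟩ := hc 0
    obtain ⟨b, hb⟩ := hc 1
    obtain ⟨c, hc'⟩ := hc 2
    refine ⟨a, b, c, ?_, ?_, ?_, by rw [ha], by rw [hb], by rw [hc'], ?_⟩
    · rintro rfl
      rw [ha] at hb
      simp at hb
    · rintro rfl
      rw [hb] at hc'
      simp at hc'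
    · rintro rfl
      rw [ha] at hc'
      simp at hc'
    · intro i hi
      have h3 : y i = (p, (y i).2) := by rw [← hi]
      generalize (y i).2 = q at h3
      fin_cases q
      · exact Or.inl (hyinj (h3.trans ha.symm))
      · exact Or.inr (Or.inl (hyinj (h3.trans hb.symm)))
      · exact Or.inr (Or.inr (hyinj (h3.trans hc'.symm)))
  -- two such parts
  obtain ⟨p, p', hpp, hp1, hp2, hp3, hp4⟩ : ∃ p p' : Fin 4, p ≠ p' ∧ p ≠ w.1 ∧ p ≠ w'.1 ∧
      p' ≠ w.1 ∧ p' ≠ w'.1 := by
    have : ∀ q q' : Fin 4, ∃ p p' : Fin 4, p ≠ p' ∧ p ≠ q ∧ p ≠ q' ∧ p' ≠ q ∧ p' ≠ q' := by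
      decide
    exact this w.1 w'.1
  obtain ⟨a, b, c, hab, hbc, hca, ya, yb, yc, hfull⟩ := hpart p hp1 hp2
  obtain ⟨a', b', c', hab', hbc', hca', ya', yb', yc', hfull'⟩ := hpart p' hp3 hp4
  obtain ⟨i, j, hi, hj, hij, h1⟩ := full_part h t hy w w' hw hcov hab hbc hca
    (by rw [yb, ya]) (by rw [yc, ya]) (fun i hi => hfull i (by rw [hi, ya])) (by rw [ya]; exact hp1)
  obtain ⟨i', j', hi', hj', hij', h2⟩ := full_part h t hy w w' hw hcov hab' hbc' hca'
    (by rw [yb', ya']) (by rw [yc', ya']) (fun i hi => hfull' i (by rw [hi, ya']))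
    (by rw [ya']; exact hp3)
  have hyi : (y i).1 = p := by
    rcases hi with rfl | rfl | rfl
    · exact ya
    · exact yb
    · exact yc
  have hyi' : (y i').1 = p' := by
    rcases hi' with rfl | rfl | rfl
    · exact ya'
    · exact yb'
    · exact yc'
  have hyj' : (y j').1 = p' := by
    rcases hj' with rfl | rfl | rfl
    · exact ya'
    · exact yb'
    · exact yc'
  rcases h.disj i j i' j' hij hij' _ h1 h2 with h' | h'
  · apply hpp
    rw [← hyi, ← hyi', h'.1]
  · apply hpp
    rw [← hyi, ← hyj', h'.1]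

end Main

theorem no_immersion : ¬ HasCliqueImmersion G 10 := by
  intro h
  obtain ⟨v, E, hI⟩ := exists_imm h
  exact no_imm hI

/-! ### Minimum degree and chromatic number -/

theorem min_degree : G.minDegree = 9 := by
  have h1 : ∀ x : Vx, 9 ≤ (Finset.univ.filter (fun y => adjB x y = true)).card := by
    decide +kernel
  have h2 : (Finset.univ.filter (fun y => adjB (Sum.inl 0) y = true)).card = 9 := by
    decide +kernel
  have hdeg : ∀ x : Vx, G.degree x = (Finset.univ.filter (fun y => adjB x y = true)).card := by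
    intro x
    rw [← SimpleGraph.card_neighborFinset_eq_degree]
    congr 1
    ext y
    simp only [SimpleGraph.mem_neighborFinset, Finset.mem_filter, Finset.mem_univ, true_and]
    rfl
  apply le_antisymm
  · calc G.minDegree ≤ G.degree (Sum.inl 0) := G.minDegree_le_degree _
      _ = 9 := (hdeg _).trans h2
  · apply G.le_minDegree_of_forall_le_degree
    intro x
    rw [hdeg]
    exact h1 x

theorem chromatic : G.chromaticNumber = 9 := by
  apply le_antisymm
  · have hcol : G.Colorable 9 := by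
      refine ⟨SimpleGraph.Coloring.mk
        (fun x => match x with
          | Sum.inl a => a
          | Sum.inr (a, z) => a + 1 + (Fin.castLE (by norm_num) z.1 : Fin 9)) ?_⟩
      rintro (a | ⟨a, z⟩) (b | ⟨b, z'⟩) h
      · have h' : adjB (Sum.inl a) (Sum.inl b) = true := h
        simpa [adjB] using h'
      · have h' : adjB (Sum.inl a) (Sum.inr (b, z')) = true := h
        simp only [adjB, Bool.and_eq_true, beq_iff_eq] at h'
        obtain ⟨rfl, rfl⟩ := h'
        revert a
        decide
      · have h' : adjB (Sum.inr (a, z)) (Sum.inl b) = true := h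
        simp only [adjB, Bool.and_eq_true, beq_iff_eq] at h'
        obtain ⟨rfl, rfl⟩ := h'
        revert b
        decide
      · have h' : adjB (Sum.inr (a, z)) (Sum.inr (b, z')) = true := h
        simp only [adjB, Bool.and_eq_true, beq_iff_eq, bne_iff_ne] at h'
        obtain ⟨rfl, hne⟩ := h'
        intro heq
        apply hne
        have h1 := add_left_cancel heq
        exact Fin.castLE_injective _ h1
    have := hcol.chromaticNumber_le
    exact_mod_cast this
  · have h9 : ((9 : ℕ) : ℕ∞) ≤ G.chromaticNumber := by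
      rw [SimpleGraph.le_chromaticNumber_iff_colorable]
      intro m hcol
      obtain ⟨C⟩ := hcol
      have hinj : Function.Injective (fun a : Fin 9 => C (Sum.inl a)) := by
        intro a b hab
        by_contra hne
        have hadj : G.Adj (Sum.inl a) (Sum.inl b) := by
          show adjB (Sum.inl a) (Sum.inl b) = true
          simpa [adjB] using hne
        exact C.valid hadj hab
      simpa using Fintype.card_le_of_injective _ hinj
    exact_mod_cast h9

/-- **Theorem.** There are an integer `d` and a finite simple graph with minimum degree `d - 1` and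
chromatic number `d - 1` that contains no immersion of `K_d` (here `d = 10`). -/
theorem result : ∃ (d : ℕ) (V : Type) (_ : Fintype V) (G : SimpleGraph V)
    (_ : DecidableRel G.Adj), 1 ≤ d ∧ G.minDegree = d - 1 ∧
      G.chromaticNumber = ((d - 1 : ℕ) : ℕ∞) ∧ ¬ HasCliqueImmersion G d :=
  ⟨10, Vx, inferInstance, G, inferInstance, by norm_num, min_degree, chromatic, no_immersion⟩

end Pool.Agent.Results.MP_5ee7f3_co.NoImmersion
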